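import Pool.Agent.H91.UV.TargetsA

/-!
# Row MONOU of `uvp_modules` (helper73, MP_c62aed_lc)
-/

namespace Pool.Agent.H73.UV

open Finset Matrix Pool.Agent.H91.UV
open Pool.Agent.H1.LP (Clause viol)
open Pool.Agent.H49.SDP (SRelax HardS SRefuted)

theorem sum_sq_le73 {M : ℕ} (f : Fin M → ℝ) (hf : ∀ j, 0 ≤ f j) :
    ∑ j, f j ^ 2 ≤ (∑ j, f j) ^ 2 := by
  rw [sq (∑ j, f j), sum_mul]
  refine sum_le_sum fun j hj => ?_
  rw [sq]
  exact mul_le_mul_of_nonneg_left (single_le_sum (fun i _ => hf i) hj) (hf j)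

theorem sum_ord_le {n : ℕ} (P : URelax n) : ((∑ i, P.ord i : ℕ) : ℝ) + 1 ≤ P.size := by
  unfold URelax.size
  push_cast
  have : ∑ i, (P.ord i : ℝ) ≤ ∑ i, (P.ord i : ℝ) ^ 2 := by
    refine sum_le_sum fun i _ => ?_
    have h : P.ord i ≤ P.ord i ^ 2 := Nat.le_self_pow (by norm_num) _
    exact_mod_cast h
  linarith

theorem pf_MONOU (hT : S_TOS) : S_MONOU := by
  intro k ε c hH
  classical
  obtain ⟨K, γ, hγ, n₀, hn⟩ := hH
  refine ⟨K, γ, hγ, n₀, fun n hn0 => ?_⟩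
  obtain ⟨Y, m, phi, hY, hphi, hP⟩ := hn n hn0
  refine ⟨Y, m, phi, hY, hphi, fun M P hsize => ?_⟩
  have hT' : ∀ j, ∃ Q : SRelax n, Q.cell = (P j).cell ∧ Q.ord = ∑ i, (P j).ord i ∧
      ∀ (m : ℕ) (phi : Fin m → Clause n) (de : ℝ), (P j).Refutes phi de → Q.Refutes phi de :=
    fun j => hT n (P j)
  choose Q hcell hord href using hT'
  have h0 : ∀ j, (0 : ℝ) ≤ ((Q j).ord : ℝ) + 1 := fun j => by positivity
  have hle : ∀ j, ((Q j).ord : ℝ) + 1 ≤ (P j).size := fun j => by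
    rw [hord j]
    exact sum_ord_le (P j)
  have hsum : ∑ j, (((Q j).ord : ℝ) + 1) ^ 2 ≤ (2 : ℝ) ^ (c * n) := by
    calc ∑ j, (((Q j).ord : ℝ) + 1) ^ 2 ≤ (∑ j, (((Q j).ord : ℝ) + 1)) ^ 2 :=
          sum_sq_le73 _ h0
      _ ≤ ((2 : ℝ) ^ (c / 2 * n)) ^ 2 := by
          refine pow_le_pow_left₀ (sum_nonneg fun j _ => h0 j) ?_ 2
          exact (sum_le_sum fun j _ => hle j).trans hsize
      _ = (2 : ℝ) ^ (c * n) := by
          rw [← Real.rpow_natCast, ← Real.rpow_mul (by norm_num)]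
          congr 1
          push_cast
          ring
  refine le_trans ?_ (hP M Q hsum)
  have hsub : (univ.filter (fun a => URefutedBy P (phi a) ((2 : ℝ) ^ (-(γ * n)))
      ((2 : ℝ) ^ (c / 2 * n)))) ⊆
      (univ.filter (fun a => SRefuted Q (phi a) ((2 : ℝ) ^ (-(γ * n))))) := by
    intro a ha
    rw [mem_filter] at ha ⊢
    refine ⟨ha.1, ?_⟩
    obtain ⟨J, h1, h2, h3, _⟩ := ha.2
    refine ⟨J, ?_, ?_, ?_⟩
    · intro j hj j' hj' hne
      rw [hcell j, hcell j']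
      exact h1 j hj j' hj' hne
    · intro x
      obtain ⟨j, hj, hx⟩ := h2 x
      exact ⟨j, hj, by rw [hcell j]; exact hx⟩
    · intro j hj
      exact href j _ _ _ (h3 j hj)
  exact_mod_cast card_le_card hsub

end Pool.Agent.H73.UV
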