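import Pool.Agent.H91.UV.TargetsA
import Pool.Agent.H70.SDP.Blk

/-!
# Row TOS of `uvp_modules` (helper73, MP_c62aed_lc): several semidefinite constraints as one
-/

namespace Pool.Agent.H73.UV

open Finset Matrix Pool.Agent.H91.UV
open Pool.Agent.H1.LP (Clause viol)
open Pool.Agent.H49.SDP (SRelax)
open Pool.Agent.H70.SDP (psd_blockDiagonal')

section

variable {nb : ℕ} {ord : Fin nb → ℕ}

theorem bd_pencil {d : ℕ} (B0 : (i : Fin nb) → Matrix (Fin (ord i)) (Fin (ord i)) ℝ)
    (B : (i : Fin nb) → Fin d → Matrix (Fin (ord i)) (Fin (ord i)) ℝ) (y : Fin d → ℝ) :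
    blockDiagonal' B0 + ∑ k, y k • blockDiagonal' (fun i => B i k) =
      blockDiagonal' (fun i => B0 i + ∑ k, y k • B i k) := by
  classical
  ext ⟨i, a⟩ ⟨j, b⟩
  rw [Matrix.add_apply, Matrix.sum_apply]
  by_cases hij : i = j
  · subst hij
    simp only [Matrix.smul_apply, blockDiagonal'_apply_eq, Matrix.add_apply, Matrix.sum_apply]
  · rw [blockDiagonal'_apply_ne _ _ _ hij, blockDiagonal'_apply_ne _ _ _ hij, zero_add]
    refine sum_eq_zero fun k _ => ?_
    rw [Matrix.smul_apply, blockDiagonal'_apply_ne _ _ _ hij, smul_zero]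

theorem bd_isSymm (B0 : (i : Fin nb) → Matrix (Fin (ord i)) (Fin (ord i)) ℝ)
    (h : ∀ i, (B0 i).IsSymm) : (blockDiagonal' B0).IsSymm := by
  unfold Matrix.IsSymm
  rw [blockDiagonal'_transpose]
  have h1 : (fun i => (B0 i)ᵀ) = B0 := funext fun i => h i
  rw [h1]

theorem bd_psd (B0 : (i : Fin nb) → Matrix (Fin (ord i)) (Fin (ord i)) ℝ) :
    (blockDiagonal' B0).PosSemidef ↔ ∀ i, (B0 i).PosSemidef := by
  classical
  constructor
  · intro h i
    have h1 := h.submatrix (fun a : Fin (ord i) => (⟨i, a⟩ : (i : Fin nb) × Fin (ord i)))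
    have h2 : (blockDiagonal' B0).submatrix
        (fun a : Fin (ord i) => (⟨i, a⟩ : (i : Fin nb) × Fin (ord i)))
        (fun a : Fin (ord i) => (⟨i, a⟩ : (i : Fin nb) × Fin (ord i))) = B0 i := by
      ext a b
      rw [submatrix_apply, blockDiagonal'_apply_eq]
    rwa [h2] at h1
  · exact psd_blockDiagonal' B0

end

theorem pf_TOS : S_TOS := by
  intro n P
  classical
  let e : Fin (∑ i, P.ord i) ≃ ((i : Fin P.nb) × Fin (P.ord i)) := finSigmaFinEquiv.symm
  have hsub : ∀ y : Fin P.dim → ℝ,
      (blockDiagonal' P.B0).submatrix e e +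
        ∑ k, y k • (blockDiagonal' (fun i => P.B i k)).submatrix e e =
      (blockDiagonal' (fun i => P.B0 i + ∑ k, y k • P.B i k)).submatrix e e := by
    intro y
    rw [← bd_pencil]
    ext a b
    simp only [Matrix.add_apply, Matrix.sum_apply, Matrix.smul_apply, submatrix_apply]
  refine ⟨{ cell := P.cell, dim := P.dim, ord := ∑ i, P.ord i
            A0 := (blockDiagonal' P.B0).submatrix e e
            A := fun k => (blockDiagonal' (fun i => P.B i k)).submatrix e e
            pt := P.pt, w := P.w, w0 := P.w0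
            symm0 := (bd_isSymm P.B0 P.symm0).submatrix e
            symm := fun k => (bd_isSymm (fun i => P.B i k) (fun i => P.symm i k)).submatrix e
            feas := ?_, bdd := P.bdd, sound := P.sound }, rfl, rfl, ?_⟩
  · intro x hx
    rw [hsub]
    exact ((bd_psd _).mpr fun i => P.feas x hx i).submatrix e
  · intro m phi de h y hy
    have hy' := hy
    change ((blockDiagonal' P.B0).submatrix e e +
      ∑ k, y k • (blockDiagonal' (fun i => P.B i k)).submatrix e e).PosSemidef at hy'
    rw [hsub, posSemidef_submatrix_equiv, bd_psd] at hy'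
    exact h y hy'

end Pool.Agent.H73.UV
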